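import Mathlib
import Pool.Agent.H576.CT.Main
import Pool.Agent.H672.CTLink
import Pool.Agent.H675.CTBallsPack
import Pool.Agent.H800.CTDrop
import Pool.Agent.H358.CTScale
import Pool.Agent.H990.CTTour
import Pool.Agent.H965.CTNet
import Pool.Agent.H591.CTCover
import Pool.Agent.H389.CTWeight
import Pool.Agent.H169.CTFar
import Pool.Agent.H230.CTArith

/-!
# Linear cover time of the time-biased walk on vertex-transitive graphs and on graphs with comparable balls

The question asks for a constant `C(ε, Δ)` such that the `ε`-time-biased walk covers every connected graph with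
`n` vertices and maximum degree at most `Δ` in expected time at most `C n`. This file proves it for all graphs
whose balls of equal radius have comparable sizes: `|B(x, r)| ≤ K |B(y, K r)|` for all `x`, `y`, `r`, with a constant
`C(ε, Δ, K)`; in particular (`K = 1`) for ALL vertex-transitive graphs, with a constant `C(ε, Δ)`.

Known before: regular expanders of bounded degree. Library: `C n (log n) ^ 2` for all graphs, and `C` times the
sum of `(1 - ε) ^ dist x y`, which is linear only for slow growth. Vertex-transitive graphs may grow exponentially up to
some scale and polynomially after it (for example products of an expander and a cycle), and the new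
theorem is uniform in this.

Proof. (a) Scale: let `r` be the first radius at which all balls are smaller than `c r ^ D`, `D = D(ε, Δ)`
large. Below `r` all balls are large: `≥ c' s ^ D`; beyond `r` the growth rate is slower than the rate at which the
biased walk can be held back, by submultiplicativity. (b) Cut the graph into blocks of radius `ρ`, `16 ρ ≤ r`,
each with about `v = |B(r)|` vertices, and go through the blocks along a closed walk of the graph of the
blocks. (c) In a block with centre `a` let `A` be the set of the unvisited vertices. Every `u ∈ A` is linked to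
nested `2 ^ j`-separated nets, and the geodesics at level `j` get the weight `2 ^ j`; the weights decay by
the factor `b = (1 - ε) ^ (1/2)` per step away from the links. All effective resistances to `a` are bounded, and
if `|A| ≤ v / E ^ s` the total conductance is at most `C v γ ^ s`, `γ < 1`, because the nets thin out faster
than the boosted weights spread. (d) So covering all but `v / E ^ (s+1)` vertices of the block in cycles around `a`
costs at most `C' v γ ^ s`, and the block costs `C'' v` in total, without the logarithm of the coupon collector.
-/

set_option autoImplicit false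

namespace Pool.Agent.Results.MP_10effd_pr.ComparableBalls

open Pool.Agent.H576.CT

theorem final : S_FINAL := by
  have hnet := Pool.Agent.H965.ct_net
  have hpack := Pool.Agent.H675.ct_pack
  have hballs := Pool.Agent.H675.ct_balls
  exact final_of (Pool.Agent.H591.ct_cover Pool.Agent.H800.ct_drop) Pool.Agent.H591.ct_move
    Pool.Agent.H990.ct_tour hnet hpack (Pool.Agent.H169.ct_far hballs) Pool.Agent.H358.ct_scale
    (Pool.Agent.H672.ct_link hnet hpack) (Pool.Agent.H389.ct_weight hballs) Pool.Agent.H230.ct_arith

/-- (1) For every bias `ε ∈ (0,1)`, degree bound `Δ` and `K` there is `C` such that on every connected graph with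
`n ≥ 2` vertices, maximum degree at most `Δ` and `|B(x, r)| ≤ K |B(y, K r)|` for all vertices `x`, `y` and radii
`r`, from every start, some control strategy of the `ε`-time-biased walk has expected cover time at most
`C n`. (2) The same, with `C` depending on `ε` and `Δ` only, on every vertex-transitive graph. -/
theorem result :
  (∀ ε : ℝ, 0 < ε → ε < 1 → ∀ Δ K : ℕ, ∃ C : ℝ, 0 < C ∧
    ∀ (V : Type) [Fintype V] [DecidableEq V] (G : SimpleGraph V) [DecidableRel G.Adj],
      2 ≤ Fintype.card V → G.Connected → (∀ v : V, G.degree v ≤ Δ) →
      (∀ (x y : V) (r : ℕ), (Finset.univ.filter (fun z => G.dist x z ≤ r)).card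
          ≤ K * (Finset.univ.filter (fun z => G.dist y z ≤ K * r)).card) →
      ∀ v₀ : V, ∃ f : V → Finset V → V, (∀ (u : V) (S : Finset V), G.Adj u (f u S)) ∧
        (∑' t : ℕ, ∑ p : V × Finset V,
          (if p.2 = Finset.univ then (0 : ENNReal) else
            (Nat.rec (motive := fun _ => V × Finset V → ENNReal)
              (fun q : V × Finset V => if q = (v₀, ({v₀} : Finset V)) then (1 : ENNReal) else 0)
              (fun (_ : ℕ) (μ : V × Finset V → ENNReal) (q : V × Finset V) =>
                ∑ r : V × Finset V, μ r *
                  (if G.Adj r.1 q.1 ∧ q.2 = insert q.1 r.2 then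
                    ENNReal.ofReal ((1 - ε) / (G.degree r.1 : ℝ) +
                      (if q.1 = f r.1 r.2 then ε else 0))
                  else 0))
              t) p))
          ≤ ENNReal.ofReal (C * (Fintype.card V : ℝ))) ∧
  (∀ ε : ℝ, 0 < ε → ε < 1 → ∀ Δ : ℕ, ∃ C : ℝ, 0 < C ∧
    ∀ (V : Type) [Fintype V] [DecidableEq V] (G : SimpleGraph V) [DecidableRel G.Adj],
      2 ≤ Fintype.card V → G.Connected → (∀ v : V, G.degree v ≤ Δ) →
      (∀ x y : V, ∃ φ : G ≃g G, φ x = y) →
      ∀ v₀ : V, ∃ f : V → Finset V → V, (∀ (u : V) (S : Finset V), G.Adj u (f u S)) ∧
        (∑' t : ℕ, ∑ p : V × Finset V,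
          (if p.2 = Finset.univ then (0 : ENNReal) else
            (Nat.rec (motive := fun _ => V × Finset V → ENNReal)
              (fun q : V × Finset V => if q = (v₀, ({v₀} : Finset V)) then (1 : ENNReal) else 0)
              (fun (_ : ℕ) (μ : V × Finset V → ENNReal) (q : V × Finset V) =>
                ∑ r : V × Finset V, μ r *
                  (if G.Adj r.1 q.1 ∧ q.2 = insert q.1 r.2 then
                    ENNReal.ofReal ((1 - ε) / (G.degree r.1 : ℝ) +
                      (if q.1 = f r.1 r.2 then ε else 0))
                  else 0))
              t) p))
          ≤ ENNReal.ofReal (C * (Fintype.card V : ℝ))) := by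
  refine ⟨main_of final, ?_⟩
  intro ε hε0 hε1 Δ
  obtain ⟨C, hC, h⟩ := main_of final ε hε0 hε1 Δ 1
  refine ⟨C, hC, ?_⟩
  intro V _ _ G _ hcard hG hΔ hT v₀
  exact h V G hcard hG hΔ (fun x y r => transitive_balls G hT x y r) v₀

end Pool.Agent.Results.MP_10effd_pr.ComparableBalls
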