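import Mathlib
import Pool.Agent.H576.CE.Main
import Pool.Agent.H576.CE.GraphN

/-!
# The cover time of the time-biased walk on an arbitrary connected graph of bounded degree is O(n log n log log n)

The question asks for a constant `C(ε, Δ)` such that the `ε`-time-biased walk covers every connected graph with
`n` vertices and maximum degree at most `Δ` in expected time at most `C n`. This file proves for ALL connected graphs of
maximum degree at most `Δ`, without any other condition, the bound

  `C n (1 + log n) (1 + log (1 + log n))`.

Proof. (a) Random shift clusters: star shaped clusters of radius `O(log n)`, such that on average only `exp (O(η t))` clusters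
meet the ball of radius `t` around a vertex; so the walk can be held in a cluster at a cost proportional to its share `Q` of
the vertices, the shares having the sum `O(n)`. (b) In a cluster with centre `o` let `A` be the set of the vertices still to be
visited. In the first `O(log log n)` stages (while `|A|` is larger than `Q` divided by a fixed power of `log n`), the
cluster carries unit weights, decaying by a constant factor per step outside the cluster, so that the effective
resistances to `o` are at most the radius `O(log n)`; in the later stages the vertices of `A` get direct links to `o` of large
weight, whose total conductance decreases geometrically, and the resistances are bounded. (c) The clusters are covered in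
stages in cycles around their centres, with interrupts for the clusters not yet visited (depth first). Each stage
costs at most a constant times the resistance times the share, that is `O(Q log n)` for each of the first
`O(log log n)` stages; the costs of the later stages form a geometric series.
-/

set_option autoImplicit false

namespace Pool.Agent.Results.MP_10effd_pr.GeneralBound

open Pool.Agent.H576.CE

/-- For every bias `ε ∈ (0,1)` and degree bound `Δ` there is `C` such that on every connected graph with `n ≥ 2` vertices and
maximum degree at most `Δ`, from every start, some control strategy of the `ε`-time-biased walk has expected cover time at most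
`C n (1 + log n) (1 + log (1 + log n))`. -/
theorem result :
  ∀ ε : ℝ, 0 < ε → ε < 1 → ∀ Δ : ℕ, ∃ C : ℝ, 0 < C ∧
    ∀ (V : Type) [Fintype V] [DecidableEq V] (G : SimpleGraph V) [DecidableRel G.Adj],
      2 ≤ Fintype.card V → G.Connected → (∀ v : V, G.degree v ≤ Δ) →
      ∀ v₀ : V, ∃ f : V → Finset V → V, (∀ (u : V) (S : Finset V), G.Adj u (f u S)) ∧
        (∑' t : ℕ, ∑ p : V × Finset V,
          (if p.2 = Finset.univ then (0 : ENNReal) else
            (Nat.rec (motive := fun _ => V × Finset V → ENNReal)
              (fun q : V × Finset V => if q = (v₀, ({v₀} : Finset V)) then (1 : ENNReal) else 0)
              (fun (_ : ℕ) (μ : V × Finset V → ENNReal) (q : V × Finset V) =>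
                ∑ r : V × Finset V, μ r *
                  (if G.Adj r.1 q.1 ∧ q.2 = insert q.1 r.2 then
                    ENNReal.ofReal ((1 - ε) / (G.degree r.1 : ℝ) +
                      (if q.1 = f r.1 r.2 then ε else 0))
                  else 0))
              t) p))
          ≤ ENNReal.ofReal (C * ((Fintype.card V : ℝ) * (1 + Real.log (Fintype.card V)) *
              (1 + Real.log (1 + Real.log (Fintype.card V))))) := by
  intro ε hε0 hε1 Δ
  obtain ⟨C, hC, h⟩ := graphN Pool.Agent.H274.CE.ce_mode Pool.Agent.H578.CE.ce_link3 Pool.Agent.H437.CE.ce_shift
    ε hε0 hε1 Δ
  refine ⟨C, hC, ?_⟩
  intro V _ _ G _ hcard hG hΔ v₀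
  exact strat ε hε0 hε1 V G hcard hG v₀ _ (fun hN k => h V G hN hG hΔ v₀ k)

end Pool.Agent.Results.MP_10effd_pr.GeneralBound
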