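import Mathlib
import Pool.Agent.H576.CE.Main
import Pool.Agent.H576.CE.FinalUE
import Pool.Agent.H576.CE.FinalUP

/-!
# A vertexwise bound for the cover time of the time-biased walk: linear as soon as almost every vertex has either
# fast local growth or a bounded holding cost

The question asks for a constant `C(ε, Δ)` such that the `ε`-time-biased walk covers every connected graph with
`n` vertices and maximum degree at most `Δ` in expected time at most `C n`. This file proves for ALL connected graphs
of bounded degree, and all sets `H`, `B` of vertices, the bound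

  `C (n + ∑ x ∈ H, ∑ y, (1 - ε) ^ d(x, y) + (log n) ^ q |B|)`

provided that every vertex outside `H ∪ B` has fast growth at small scales: `|B(x, r)| ≥ c exp (κ r)` for all
`r ≤ δ log n`, where `κ, δ, c > 0` are arbitrary (part (1)), or `|B(x, r)| ≥ c r ^ D` for all `r ≤ n ^ δ`, with
`(log n) ^ q` replaced by `n ^ (q δ)` (part (2)). Here `∑ y, (1 - ε) ^ d(x, y)` is the cost of holding the walk at `x`; it is
bounded if the growth around `x` is slow. So the cover time is linear as soon as every vertex `x`, with at most
`n / (log n) ^ q` exceptions, has either large local growth or a bounded holding cost; there is no homogeneity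
condition, no condition at larger scales and no upper bound for the growth of the first kind of vertices. Slow and
fast regions may be mixed in any way; the case left open is that of many vertices whose own growth is slow and
which lie within `O(log n)` of a large region of fast growth.

Proof. (a) Random shift clusters with a SLOW rate (in (1) the shifts have exponential tails with a small rate `η`, in (2)
polynomial tails): the clusters are star shaped, have radius `O(log n)` (resp. `n ^ δ`), and on average only `exp (O(η t))`
(resp. polynomially many) clusters meet the ball of radius `t` around a vertex; so the walk can be held in a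
cluster at a cost proportional to its share `Q` of the vertices, the shares having the sum `O(n)`. The vertices of `H`
become clusters of their own. (b) In a cluster with centre `o` let `A` be the set of the vertices still to be visited.
Every fast `u ∈ A` is linked to nested `2 ^ j`-separated nets, and the links of level `j` get the weight `2 ^ j`, decaying by
the factor `(1 - ε) ^ (1/2)` per step away from the links; the exceptional vertices get direct links to `o` of the
largest weight. All effective resistances to `o` are bounded. The nets thin out faster than the overlaps of the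
clusters and the boosted weights grow, so if `|A| ≤ Q / E ^ s` the total conductance is at most `C Q γ ^ s`, `γ < 1`.
(c) The clusters are covered in stages in cycles around their centres, with interrupts for the clusters not yet
visited (depth first); the costs of the stages of a cluster form a geometric series.
-/

set_option autoImplicit false

namespace Pool.Agent.Results.MP_10effd_pr.VertexwiseBound

open Pool.Agent.H576.CE

/-- (1) For every bias `ε ∈ (0,1)` and degree bound `Δ` there is `q` such that for all `κ, δ, c > 0` there is `C`: on every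
connected graph with `n ≥ 2` vertices and maximum degree at most `Δ`, for all sets `H`, `B` of vertices such that
`|B(x, r)| ≥ c exp (κ r)` for all `x ∉ H ∪ B` and all `r ≤ δ log n`, from every start, some control strategy of the `ε`-time-biased
walk has expected cover time at most `C (n + ∑ x ∈ H, ∑ y, (1 - ε) ^ d(x, y) + (log n) ^ q |B|)`. (2) For every `ε`, `Δ` there is `q`
such that for every `δ > 0` there is `D` such that for every `c > 0` there is `C`: if `|B(x, r)| ≥ c r ^ D` for all `x ∉ H ∪ B` and
all `r ≤ n ^ δ`, the same with the bound `C (n + ∑ x ∈ H, ∑ y, (1 - ε) ^ d(x, y) + n ^ (q δ) |B|)`. -/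
theorem result :
  (∀ ε : ℝ, 0 < ε → ε < 1 → ∀ Δ : ℕ, ∃ q : ℕ, ∀ κ δ c : ℝ, 0 < κ → 0 < δ → 0 < c → ∃ C : ℝ, 0 < C ∧
    ∀ (V : Type) [Fintype V] [DecidableEq V] (G : SimpleGraph V) [DecidableRel G.Adj],
      2 ≤ Fintype.card V → G.Connected → (∀ v : V, G.degree v ≤ Δ) →
      ∀ H B : Finset V,
      (∀ x : V, x ∉ H → x ∉ B → ∀ r : ℕ, (r : ℝ) ≤ δ * Real.log (Fintype.card V) →
        c * Real.exp (κ * r) ≤ ((Finset.univ.filter (fun z => G.dist x z ≤ r)).card : ℝ)) →
      ∀ v₀ : V, ∃ f : V → Finset V → V, (∀ (u : V) (S : Finset V), G.Adj u (f u S)) ∧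
        (∑' t : ℕ, ∑ p : V × Finset V,
          (if p.2 = Finset.univ then (0 : ENNReal) else
            (Nat.rec (motive := fun _ => V × Finset V → ENNReal)
              (fun q : V × Finset V => if q = (v₀, ({v₀} : Finset V)) then (1 : ENNReal) else 0)
              (fun (_ : ℕ) (μ : V × Finset V → ENNReal) (q : V × Finset V) =>
                ∑ r : V × Finset V, μ r *
                  (if G.Adj r.1 q.1 ∧ q.2 = insert q.1 r.2 then
                    ENNReal.ofReal ((1 - ε) / (G.degree r.1 : ℝ) +
                      (if q.1 = f r.1 r.2 then ε else 0))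
                  else 0))
              t) p))
          ≤ ENNReal.ofReal (C * ((Fintype.card V : ℝ) + ∑ x ∈ H, ∑ y : V, (1 - ε) ^ G.dist x y
              + Real.log (Fintype.card V) ^ q * (B.card : ℝ)))) ∧
  (∀ ε : ℝ, 0 < ε → ε < 1 → ∀ Δ : ℕ, ∃ q : ℕ, ∀ δ : ℝ, 0 < δ → ∃ D : ℕ, ∀ c : ℝ, 0 < c → ∃ C : ℝ, 0 < C ∧
    ∀ (V : Type) [Fintype V] [DecidableEq V] (G : SimpleGraph V) [DecidableRel G.Adj],
      2 ≤ Fintype.card V → G.Connected → (∀ v : V, G.degree v ≤ Δ) →
      ∀ H B : Finset V,
      (∀ x : V, x ∉ H → x ∉ B → ∀ r : ℕ, (r : ℝ) ≤ (Fintype.card V : ℝ) ^ δ →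
        c * (r : ℝ) ^ D ≤ ((Finset.univ.filter (fun z => G.dist x z ≤ r)).card : ℝ)) →
      ∀ v₀ : V, ∃ f : V → Finset V → V, (∀ (u : V) (S : Finset V), G.Adj u (f u S)) ∧
        (∑' t : ℕ, ∑ p : V × Finset V,
          (if p.2 = Finset.univ then (0 : ENNReal) else
            (Nat.rec (motive := fun _ => V × Finset V → ENNReal)
              (fun q : V × Finset V => if q = (v₀, ({v₀} : Finset V)) then (1 : ENNReal) else 0)
              (fun (_ : ℕ) (μ : V × Finset V → ENNReal) (q : V × Finset V) =>
                ∑ r : V × Finset V, μ r *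
                  (if G.Adj r.1 q.1 ∧ q.2 = insert q.1 r.2 then
                    ENNReal.ofReal ((1 - ε) / (G.degree r.1 : ℝ) +
                      (if q.1 = f r.1 r.2 then ε else 0))
                  else 0))
              t) p))
          ≤ ENNReal.ofReal (C * ((Fintype.card V : ℝ) + ∑ x ∈ H, ∑ y : V, (1 - ε) ^ G.dist x y
              + (Fintype.card V : ℝ) ^ (q * δ) * (B.card : ℝ)))) := by
  refine ⟨?_, ?_⟩
  · intro ε hε0 hε1 Δ
    obtain ⟨q, hq⟩ := finalUE Pool.Agent.H274.CE.ce_mode Pool.Agent.H578.CE.ce_link3 Pool.Agent.H200.CE.ce_arith3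
      Pool.Agent.H437.CE.ce_shift Pool.Agent.H252.CEPARAM.ce_param ε hε0 hε1 Δ
    refine ⟨q, fun κ δ c hκ hδ hc => ?_⟩
    obtain ⟨C, hC, h⟩ := hq κ δ c hκ hδ hc
    refine ⟨C, hC, ?_⟩
    intro V _ _ G _ hcard hG hΔ H B hgr v₀
    exact strat ε hε0 hε1 V G hcard hG v₀ _
      (fun hN k => h V G hN hG hΔ H B (fun x hx hx' r hr => hgr x hx hx' r hr) v₀ k)
  · intro ε hε0 hε1 Δ
    obtain ⟨q, hq⟩ := finalUP Pool.Agent.H274.CE.ce_mode Pool.Agent.H578.CE.ce_link3 Pool.Agent.H200.CE.ce_arith3
      Pool.Agent.H977.CEP.ce_shiftp Pool.Agent.H348.CE.ce_paramp ε hε0 hε1 Δ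
    refine ⟨q, fun δ hδ => ?_⟩
    obtain ⟨D, hD⟩ := hq δ hδ
    refine ⟨D, fun c hc => ?_⟩
    obtain ⟨C, hC, h⟩ := hD c hc
    refine ⟨C, hC, ?_⟩
    intro V _ _ G _ hcard hG hΔ H B hgr v₀
    exact strat ε hε0 hε1 V G hcard hG v₀ _
      (fun hN k => h V G hN hG hΔ H B (fun x hx hx' r hr => hgr x hx hx' r hr) v₀ k)

end Pool.Agent.Results.MP_10effd_pr.VertexwiseBound
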